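import Pool.Agent.Helper85.LN.Goals

/-! # Project LN, packet MEM1: the membership criterion -/

namespace Pool.Agent.Helper8.LN

open Pool.Agent.Helper85.LN

section

variable {Q X : Type*} (A : Auto Q X)

/-- generator of a state -/
def io (q : Q) : PresentedGroup (relsC A) := PresentedGroup.of (Sum.inl q)

/-- generator of a letter -/
def ca (a : X) : PresentedGroup (relsC A) := PresentedGroup.of (Sum.inr a)

/-- value of a signed state -/
def gs (s : S Q) : PresentedGroup (relsC A) := cond s.2 (io A s.1) (io A s.1)⁻¹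

/-- value of a word of signed states -/
def gw (w : List (S Q)) : PresentedGroup (relsC A) := (w.map (gs A)).prod

theorem rel_eq (q : Q) (a : X) : io A q * ca A a = ca A (A.out q a) * io A (A.tr q a) := by
  have h : (QuotientGroup.mk (FreeGroup.of (Sum.inl q) * FreeGroup.of (Sum.inr a) *
      (FreeGroup.of (Sum.inr (A.out q a)) * FreeGroup.of (Sum.inl (A.tr q a)))⁻¹) :
      PresentedGroup (relsC A)) = 1 := by
    rw [QuotientGroup.eq_one_iff]
    exact Subgroup.subset_normalClosure ⟨(q, a), rfl⟩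
  exact mul_inv_eq_one.1 h

theorem gs_neg (s : S Q) : gs A (s.1, !s.2) = (gs A s)⁻¹ := by
  obtain ⟨q, b⟩ := s
  cases b <;> simp [gs]

theorem gw_nil : gw A [] = 1 := rfl

theorem gw_cons (s : S Q) (w : List (S Q)) : gw A (s :: w) = gs A s * gw A w := by
  simp [gw]

theorem gw_append (u v : List (S Q)) : gw A (u ++ v) = gw A u * gw A v := by
  simp [gw]

theorem gw_iw (w : List (S Q)) : gw A (iw w) = (gw A w)⁻¹ := by
  induction w with
  | nil => simp [iw, gw_nil]
  | cons s w ih =>
    rw [iw_cons, gw_append, ih, gw_cons, gw_cons, gw_nil, mul_one, gs_neg, mul_inv_rev]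

theorem gs_ca (s : S Q) (a : X) : gs A s * ca A a = ca A (A.toWA.lt s a) * gw A (A.toWA.sc s a) := by
  obtain ⟨q, b⟩ := s
  cases b
  · have h := rel_eq A q ((A.out q).symm a)
    rw [Equiv.apply_symm_apply] at h
    change (io A q)⁻¹ * ca A a = ca A ((A.out q).symm a) *
      gw A (iw [(A.tr q ((A.out q).symm a), true)])
    rw [gw_iw, gw_cons, gw_nil, mul_one]
    change (io A q)⁻¹ * ca A a = ca A ((A.out q).symm a) * (io A (A.tr q ((A.out q).symm a)))⁻¹
    rw [eq_mul_inv_iff_mul_eq, mul_assoc, ← h, inv_mul_cancel_left]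
  · change io A q * ca A a = ca A (A.out q a) * gw A [(A.tr q a, true)]
    rw [gw_cons, gw_nil, mul_one]
    exact rel_eq A q a

theorem gw_ca (w : List (S Q)) (a : X) :
    gw A w * ca A a = ca A (A.toWA.ltw w a) * gw A (A.toWA.scw w a) := by
  induction w with
  | nil => simp [gw_nil, WA.ltw, WA.scw]
  | cons s w ih =>
    rw [gw_cons, mul_assoc, ih, ← mul_assoc, gs_ca]
    simp only [WA.ltw, WA.scw]
    rw [gw_append, mul_assoc]

theorem gw_mem (w : List (S Q)) : gw A w ∈ Subgroup.closure (Set.range fun q : Q =>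
    PresentedGroup.of (rels := relsC A) (Sum.inl q)) := by
  induction w with
  | nil => exact Subgroup.one_mem _
  | cons s w ih =>
    rw [gw_cons]
    refine Subgroup.mul_mem _ ?_ ih
    obtain ⟨q, b⟩ := s
    cases b
    · exact Subgroup.inv_mem _ (Subgroup.subset_closure ⟨q, rfl⟩)
    · exact Subgroup.subset_closure ⟨q, rfl⟩

theorem val_one (h : ∀ a b, a ≠ b → ¬ Mem A a b) (w : List (S Q)) (hw : gw A w = 1) : A.val w = 1 := by
  ext1 u
  rw [Equiv.Perm.one_apply]
  induction u generalizing w with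
  | nil => exact A.val_apply_nil w
  | cons a u ih =>
    have h1 := gw_ca A w a
    rw [hw, one_mul] at h1
    have h2 : (ca A (A.toWA.ltw w a))⁻¹ * ca A a = gw A (A.toWA.scw w a) := by
      rw [inv_mul_eq_iff_eq_mul]
      exact h1
    have h3 : a = A.toWA.ltw w a := by
      by_contra hne
      apply h _ _ hne
      have h4 := gw_mem A (A.toWA.scw w a)
      rw [← h2] at h4
      exact h4
    rw [← h3, inv_mul_cancel] at h2
    rw [A.val_apply_cons, ih _ h2.symm, ← h3]

theorem ln_of [Finite Q] (h : ∀ a b, a ≠ b → ¬ Mem A a b) : A.LN := by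
  rw [A.LN_iff]
  intro w a h1 h2
  set F : Set (PresentedGroup (relsC A)) := gw A '' {v | v.length = w.length ∧ A.val v = 1} with hF
  have hfin : F.Finite :=
    Set.Finite.image _ ((List.finite_length_eq (S Q) w.length).subset fun v hv => hv.1)
  set f : PresentedGroup (relsC A) → PresentedGroup (relsC A) := fun x => (ca A a)⁻¹ * x * ca A a with hf
  have hinj : Function.Injective f := by
    intro x y hxy
    simpa [hf] using hxy
  have hmap : f '' F ⊆ F := by
    rintro _ ⟨_, ⟨v, ⟨hv1, hv2⟩, rfl⟩, rfl⟩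
    have e1 := A.ltw_of_val_eq_one v hv2 a
    have e2 := gw_ca A v a
    rw [e1] at e2
    refine ⟨A.toWA.scw v a, ⟨?_, A.scw_of_val_eq_one v hv2 a⟩, ?_⟩
    · rw [A.scw_length, hv1]
    · change _ = (ca A a)⁻¹ * gw A v * ca A a
      rw [mul_assoc, e2, inv_mul_cancel_left]
  have heq : f '' F = F := by
    refine Set.eq_of_subset_of_ncard_le hmap ?_ hfin
    rw [Set.ncard_image_of_injective _ hinj]
  have hw1 : gw A (A.toWA.scw w a) ∈ F := ⟨_, ⟨A.scw_length w a, h2⟩, rfl⟩
  rw [← heq] at hw1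
  obtain ⟨_, ⟨v, ⟨-, hv2⟩, rfl⟩, hv3⟩ := hw1
  have e2 := gw_ca A w a
  rw [h1] at e2
  have e3 : gw A (A.toWA.scw w a) = f (gw A w) := by
    change _ = (ca A a)⁻¹ * gw A w * ca A a
    rw [mul_assoc, e2, inv_mul_cancel_left]
  rw [e3] at hv3
  have e4 := hinj hv3
  have e5 : gw A (w ++ iw v) = 1 := by
    rw [gw_append, gw_iw, e4, mul_inv_cancel]
  have e6 := val_one A h _ e5
  rw [A.val_append, A.val_iw, hv2, inv_one, mul_one] at e6
  exact e6

end

/-- MEM1 -/
theorem mem1 : S_MEM1 := fun _ _ A h => ln_of A h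

end Pool.Agent.Helper8.LN
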